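import Mathlib

/-!
For even `n ≥ 8` there is a prime modulo which `2` has multiplicative order `n`
(a special case of Bang's theorem).
-/

set_option autoImplicit false

namespace Pool.Agent.Lib.MP_c6b127_co.AF

open Polynomial

theorem cyc_prime {n r : ℕ} (hn : 0 < n) (hr : r.Prime)
    (hd : (r : ℤ) ∣ (cyclotomic n ℤ).eval 2) :
    ∃ k m : ℕ, n = r ^ k * m ∧ ¬ r ∣ m ∧ orderOf (2 : ZMod r) = m ∧ m ∣ r - 1 ∧ r ≠ 2 ∧
      (r : ℤ) ∣ 2 ^ m - 1 := by
  have := Fact.mk hr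
  obtain ⟨k, m, hm, rfl⟩ := Nat.exists_eq_pow_mul_and_not_dvd hn.ne' r hr.ne_one
  have hm0 : 0 < m := Nat.pos_of_ne_zero fun h => hm (by simp [h])
  have : NeZero (m : ZMod r) := ⟨by rwa [Ne, ZMod.natCast_eq_zero_iff]⟩
  have hroot : (cyclotomic (r ^ k * m) (ZMod r)).IsRoot 2 := by
    have h := cyclotomic.eval_apply (2 : ℤ) (r ^ k * m) (Int.castRingHom (ZMod r))
    simp only [eq_intCast, Int.cast_ofNat] at h
    rw [IsRoot, h]
    exact (ZMod.intCast_zmod_eq_zero_iff_dvd _ _).2 hd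
  have hp := isRoot_cyclotomic_prime_pow_mul_iff_of_charP.1 hroot
  have h0 : (2 : ZMod r) ≠ 0 := (hp.isUnit hm0.ne').ne_zero
  refine ⟨k, m, rfl, hm, hp.eq_orderOf.symm, ?_, ?_, ?_⟩
  · rw [hp.eq_orderOf]
    exact ZMod.orderOf_dvd_card_sub_one h0
  · rintro rfl
    exact h0 (ZMod.natCast_self 2)
  · refine (ZMod.intCast_zmod_eq_zero_iff_dvd _ _).1 ?_
    push_cast
    rw [hp.pow_eq_one, sub_self]

theorem three_mul_lt {r : ℕ} (h : 5 ≤ r) : 3 * r ≤ 2 ^ r - 1 := by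
  have : 3 * r + 1 ≤ 2 ^ r := by
    induction r, h using Nat.le_induction with
    | base => norm_num
    | succ k _ ih => rw [pow_succ]; omega
  omega

theorem bang (n : ℕ) (hn : 8 ≤ n) (h2 : 2 ∣ n) :
    ∃ r : ℕ, r.Prime ∧ orderOf (2 : ZMod r) = n := by
  by_contra hcon
  push Not at hcon
  have hn0 : 0 < n := by omega
  set Φ : ℤ := (cyclotomic n ℤ).eval 2 with hΦ
  have key : ∀ r : ℕ, r.Prime → (r : ℤ) ∣ Φ → ∃ k m : ℕ, n = r ^ k * m * r ∧ ¬ r ∣ m ∧
      0 < m ∧ m ∣ r - 1 ∧ r ≠ 2 ∧ (r : ℤ) ∣ 2 ^ m - 1 := by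
    intro r hr hd
    obtain ⟨k, m, h1, h3, h4, h5, h6, h7⟩ := cyc_prime hn0 hr hd
    rcases k with _ | k
    · exact absurd (by simpa [h1] using h4) (hcon r hr)
    · exact ⟨k, m, by rw [h1]; ring, h3, Nat.pos_of_ne_zero fun h => h3 (by simp [h]), h5, h6, h7⟩
  have hle : ∀ r r' : ℕ, r.Prime → (r : ℤ) ∣ Φ → r'.Prime → (r' : ℤ) ∣ Φ → r ≤ r' := by
    intro r r' hr hd hr' hd'
    obtain ⟨k, m, h1, -⟩ := key r hr hd
    obtain ⟨k', m', h1', -, h3, h4, -⟩ := key r' hr' hd'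
    have : r ∣ r' ^ (k' + 1) * m' := ⟨r ^ k * m, by
      rw [show r' ^ (k' + 1) * m' = r' ^ k' * m' * r' by ring, ← h1', h1]; ring⟩
    rcases (Nat.Prime.dvd_mul hr).1 this with h | h
    · exact Nat.le_of_dvd hr'.pos (hr.dvd_of_dvd_pow h)
    · have := hr'.two_le
      have h5 := Nat.le_of_dvd (by omega) h4
      have h6 := Nat.le_of_dvd h3 h
      omega
  have h1 : 1 < Φ.natAbs := by
    simpa using sub_one_pow_totient_lt_natAbs_cyclotomic_eval (n := n) (q := 2) (by omega)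
      (by norm_num)
  obtain ⟨r, hr, hd⟩ := Nat.exists_prime_and_dvd h1.ne'
  have hd' : (r : ℤ) ∣ Φ := Int.natCast_dvd.2 hd
  obtain ⟨k, m, hnk, hrm, hm0, hm1, hr2, hry⟩ := key r hr hd'
  have hodd : Odd r := hr.odd_of_ne_two hr2
  have hpow := Nat.eq_prime_pow_of_unique_prime_dvd (n := Φ.natAbs) (p := r) (by omega)
    fun {d} hdp hdd => le_antisymm (hle d r hdp (Int.natCast_dvd.2 hdd) hr hd')
      (hle r d hr hd' hdp (Int.natCast_dvd.2 hdd))
  set n' := r ^ k * m with hn'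
  have hn'0 : 0 < n' := Nat.mul_pos (pow_pos hr.pos _) hm0
  have hr3 : 3 ≤ r := by have := hr.two_le; omega
  have hsq : ¬ ((r : ℤ) ^ 2 ∣ Φ) := by
    intro hsq
    have hmem : n' ∈ n.properDivisors :=
      Nat.mem_properDivisors.2 ⟨⟨r, hnk⟩, by rw [hnk]; nlinarith⟩
    have hdv := eval_dvd (x := (2 : ℤ))
      (X_pow_sub_one_mul_cyclotomic_dvd_X_pow_sub_one_of_dvd ℤ hmem)
    simp only [eval_mul, eval_sub, eval_pow, eval_X, eval_one] at hdv
    obtain ⟨b, hb⟩ : (r : ℤ) ∣ 2 ^ n' - 1 := hry.trans (by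
      rw [hn', mul_comm, pow_mul]
      simpa using sub_dvd_pow_sub_pow ((2 : ℤ) ^ m) 1 (r ^ k))
    have hy : (2 : ℤ) ^ n' = 1 + r * b := by linarith
    have hne : (2 : ℤ) ^ n' - 1 ≠ 0 := by
      have : (1 : ℤ) < 2 ^ n' := one_lt_pow₀ (by norm_num) hn'0.ne'
      omega
    rw [show (2 : ℤ) ^ n - 1 = (2 ^ n' - 1) * ∑ i ∈ Finset.range r, ((2 : ℤ) ^ n') ^ i by
      rw [mul_geom_sum, ← pow_mul, ← hnk]] at hdv
    have h3 := hsq.trans ((mul_dvd_mul_iff_left hne).1 hdv)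
    have h4 := odd_sq_dvd_geom_sum₂_sub (1 : ℤ) b hodd
    simp only [one_pow, mul_one, ← hy] at h4
    have h5 : (r : ℤ) ^ 2 ∣ r := by simpa using dvd_sub h3 h4
    have h6 := Int.le_of_dvd (by exact_mod_cast hr.pos) h5
    have : (3 : ℤ) ≤ r := by exact_mod_cast hr3
    nlinarith
  have hΦr : Φ.natAbs ≤ r := by
    rcases Nat.lt_or_ge (Φ.natAbs.primeFactorsList.length) 2 with h | h
    · rw [hpow]
      calc r ^ _ ≤ r ^ 1 := Nat.pow_le_pow_right hr.pos (by omega)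
        _ = r := pow_one r
    · exfalso
      apply hsq
      have : r ^ 2 ∣ Φ.natAbs := by rw [hpow]; exact pow_dvd_pow _ h
      exact_mod_cast Int.natCast_dvd.2 this
  have h2m : 2 ∣ m := by
    rw [hnk, hn'] at h2
    have hc : Nat.Coprime 2 r := (Nat.coprime_primes Nat.prime_two hr).2 hr2.symm
    exact (Nat.Coprime.pow_right k hc).dvd_of_dvd_mul_left (hc.dvd_of_dvd_mul_right h2)
  have hm2 : 2 ≤ m := Nat.le_of_dvd hm0 h2m
  have hn'1 : 1 < n' := lt_of_lt_of_le (by omega) (Nat.le_mul_of_pos_left m (pow_pos hr.pos k))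
  have hbig := sub_one_pow_totient_lt_natAbs_cyclotomic_eval (n := n') (q := 2 ^ r) hn'1
    (by have := Nat.one_lt_two_pow hr.pos.ne'; omega)
  have htot : 0 < n'.totient := Nat.totient_pos.2 hn'0
  push_cast at hbig
  rw [← expand_eval] at hbig
  have hlt : r < 2 ^ r := Nat.lt_two_pow_self
  by_cases hdiv : r ∣ n'
  · rw [cyclotomic_expand_eq_cyclotomic hr hdiv, ← hnk, ← hΦ] at hbig
    have : 2 ^ r - 1 ≤ (2 ^ r - 1) ^ n'.totient := Nat.le_self_pow htot.ne' _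
    omega
  · rw [cyclotomic_expand_eq_cyclotomic_mul hr hdiv, ← hnk, eval_mul, ← hΦ, Int.natAbs_mul] at hbig
    have hk : k = 0 := by
      by_contra hk
      exact hdiv (Dvd.dvd.mul_right (dvd_pow_self r hk) m)
    have hr5 : 5 ≤ r := by
      by_contra h5
      obtain ⟨c, hc⟩ := hodd
      have : r = 3 := by omega
      subst this
      have := Nat.le_of_dvd (by norm_num) hm1
      simp only [hk, pow_zero, one_mul] at hn'
      omega
    have hsmall : ((cyclotomic n' ℤ).eval 2).natAbs ≤ 3 ^ n'.totient := by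
      have h := cyclotomic_eval_le_add_one_pow_totient (q := (2 : ℝ)) (by norm_num) n'
      have h' := cyclotomic.eval_apply (2 : ℤ) n' (Int.castRingHom ℝ)
      simp only [eq_intCast, Int.cast_ofNat] at h'
      rw [h', show (2 : ℝ) + 1 = 3 by norm_num] at h
      have h'' : (cyclotomic n' ℤ).eval 2 ≤ 3 ^ n'.totient := by exact_mod_cast h
      have hpos : 0 < (cyclotomic n' ℤ).eval 2 := cyclotomic_pos' n' (by norm_num)
      zify
      rwa [abs_of_pos hpos]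
    have h3 : (3 * r) ^ n'.totient ≤ (2 ^ r - 1) ^ n'.totient :=
      Nat.pow_le_pow_left (three_mul_lt hr5) _
    have h4 : r ≤ r ^ n'.totient := Nat.le_self_pow htot.ne' _
    rw [mul_pow] at h3
    have h5 := Nat.mul_le_mul (hΦr.trans h4) hsmall
    rw [mul_comm (r ^ _)] at h5
    omega

end Pool.Agent.Lib.MP_c6b127_co.AF
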