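import Pool.Agent.Lib.MP_c6b127_co.AF.Eight
import Pool.Agent.Lib.MP_c6b127_co.AF.Bang

/-!
Additive maps of prime order permuting the subgroups, and the algebraic form of the theorem.
-/

set_option autoImplicit false

namespace Pool.Agent.Lib.MP_c6b127_co.AF

variable {V ι : Type} [AddCommGroup V] [Fintype V] [Fintype ι] {W : ι → AddSubgroup V} {s t : ℕ}

theorem fix_pow (g : V →+ V) {r : ℕ} (hr : r.Prime) (hr2 : r ≠ 2) (hgr : ∀ x, g^[r] x = x)
    (U : AddSubgroup V) (hU : ∀ x ∈ U, g x ∈ U) {k : ℕ} (hk : Nat.card U = 2 ^ k) :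
    ∃ c ≤ k, Nat.card ↥(U ⊓ (g - AddMonoidHom.id V).ker) = 2 ^ c ∧
      orderOf (2 : ZMod r) ∣ k - c := by
  have := Fact.mk hr
  obtain ⟨c, hc, hc'⟩ := (Nat.dvd_prime_pow Nat.prime_two).1
    (hk ▸ AddSubgroup.card_dvd_of_le (inf_le_left : U ⊓ (g - AddMonoidHom.id V).ker ≤ U))
  refine ⟨c, hc, hc', ?_⟩
  let f : U → U := fun x => ⟨g x, hU x x.2⟩
  have hf : ∀ (n : ℕ) (x : U), (f^[n] x : V) = g^[n] x := by
    intro n
    induction n with
    | zero => intro x; rfl
    | succ n ih => intro x; rw [Function.iterate_succ_apply, ih]; rfl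
  have h1 := fix_mod f hr fun x => Subtype.ext (by rw [hf, hgr])
  have h2 : Nat.card {x // f x = x} = Nat.card ↥(U ⊓ (g - AddMonoidHom.id V).ker) :=
    Nat.card_congr
      { toFun := fun x => ⟨x.1.1, x.1.2, sub_eq_zero.2 (congrArg Subtype.val x.2)⟩
        invFun := fun x => ⟨⟨x.1, x.2.1⟩, Subtype.ext (sub_eq_zero.1 x.2.2)⟩
        left_inv := fun x => rfl
        right_inv := fun x => rfl }
  rw [h2, hk, hc'] at h1
  have h3 := (ZMod.natCast_eq_natCast_iff _ _ _).2 h1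
  push_cast at h3
  have h0 : (2 : ZMod r) ≠ 0 := by
    intro h0
    have : ((2 : ℕ) : ZMod r) = 0 := by exact_mod_cast h0
    exact hr2 ((Nat.prime_dvd_prime_iff_eq hr Nat.prime_two).1 ((ZMod.natCast_eq_zero_iff _ _).1 this))
  rw [orderOf_dvd_iff_pow_eq_one]
  apply mul_left_cancel₀ (pow_ne_zero c h0)
  rw [← pow_add, Nat.add_sub_cancel' hc, h3, mul_one]

omit [Fintype V] [Fintype ι] in
theorem iter_mem {g : V →+ V} {π : ι → ι} (hg : ∀ i x, x ∈ W i → g x ∈ W (π i)) (n : ℕ) :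
    ∀ i x, x ∈ W i → g^[n] x ∈ W (π^[n] i) := by
  induction n with
  | zero => exact fun i x hx => hx
  | succ n ih => exact fun i x hx => ih _ _ (hg i x hx)

theorem Fam.per (h : Fam W s t) {g : V →+ V} {π : ι → ι} (hg : ∀ i x, x ∈ W i → g x ∈ W (π i))
    {r : ℕ} (hgr : ∀ x, g^[r] x = x) (i : ι) : π^[r] i = i := by
  obtain ⟨a, ha, ha0⟩ := h.exne i
  by_contra hc
  exact ha0 (h.inter hc (hgr a ▸ iter_mem hg r i a ha) ha)

theorem Fam.auto (h : Fam W s t) {n : ℕ} (hn : s + 1 = 2 ^ n) (ht : t = s + 2) {g : V →+ V}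
    {π : ι → ι} (hg : ∀ i x, x ∈ W i → g x ∈ W (π i)) {r : ℕ} (hr : r.Prime) (hr2 : r ≠ 2)
    (hgr : ∀ x, g^[r] x = x) (hne : ∃ x, g x ≠ x) (hd : n < orderOf (2 : ZMod r)) :
    ∃ c ≤ n, Nat.card {x // g x = x} = 2 ^ c ∧ orderOf (2 : ZMod r) ∣ 3 * n - c ∧
      ∀ i, π i = i → n ≤ c := by
  set K := (g - AddMonoidHom.id V).ker with hK
  have hV : Nat.card V = 2 ^ (3 * n) := by rw [h.cardV, mul_comm 3, pow_mul, ← hn, ht]; ring
  have hfix : ∀ i, π i = i → W i ≤ K := by
    intro i hi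
    obtain ⟨c, hc, h1, h2⟩ := fix_pow g hr hr2 hgr (W i) (fun x hx => hi ▸ hg i x hx)
      ((h.cardW i).trans hn)
    have h3 := Nat.eq_zero_of_dvd_of_lt h2 (by omega)
    have h4 : W i ⊓ K = W i := AddSubgroup.eq_of_le_of_card_ge inf_le_left
      (by rw [h1, h.cardW, hn, show c = n by omega])
    exact inf_eq_left.1 h4
  obtain ⟨c, -, h1, h2⟩ := fix_pow g hr hr2 hgr ⊤ (fun _ _ => trivial)
    (AddSubgroup.card_top.trans hV)
  rw [top_inf_eq] at h1
  refine ⟨c, ?_, (Nat.card_congr (Equiv.subtypeEquivRight fun x => sub_eq_zero.symm)).trans h1, h2,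
    fun i hi => ?_⟩
  swap
  · have := AddSubgroup.card_le_of_le (hfix i hi)
    rwa [h.cardW, hn, h1, Nat.pow_le_pow_iff_right (by norm_num)] at this
  obtain ⟨i, hi⟩ : ∃ i, π i ≠ i := by
    by_contra hc
    push Not at hc
    obtain ⟨x, hx⟩ := hne
    obtain ⟨i⟩ : Nonempty ι := (Nat.card_pos_iff.1 (by rw [h.cardI]; omega)).1
    refine hx (sub_eq_zero.1 (show x ∈ K from ?_))
    by_cases hxi : x ∈ W i
    · exact hfix i (hc i) hxi
    · obtain ⟨j, a, ha, b, hb, rfl⟩ := h.ex i x hxi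
      exact add_mem (hfix i (hc i) ha) (hfix j (hc j) hb)
  have hper := h.per hg hgr
  have hi2 : π (π i) ≠ i := fun e => hi (by
    have h3 := Function.IsPeriodicPt.gcd (show Function.IsPeriodicPt π 2 i from e) (hper i)
    rwa [(Nat.coprime_primes Nat.prime_two hr).2 hr2.symm] at h3)
  obtain ⟨r', rfl⟩ : ∃ r', r = r' + 1 := ⟨r - 1, by have := hr.pos; omega⟩
  have hi1 : π (π i) ≠ π i := fun e => hi (by
    have h3 := hper i
    rwa [Function.iterate_succ_apply, Function.iterate_fixed e] at h3)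
  have ginj : ∀ x, g x = 0 → x = 0 := fun x hx => by
    rw [← hgr x, Function.iterate_succ_apply, hx, Function.iterate_fixed (map_zero g)]
  let φ : W i × W i × W i →+ V :=
    { toFun := fun p => p.1 + g p.2.1 + g (g p.2.2)
      map_zero' := by simp
      map_add' := fun p q => by simp only [Prod.fst_add, Prod.snd_add, AddSubgroup.coe_add, map_add]; abel }
  have hφ : Function.Injective φ := by
    rw [injective_iff_map_eq_zero]
    rintro ⟨x, y, z⟩ (e : (x : V) + g y + g (g z) = 0)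
    have e1 := h.tri _ _ _ hi.symm hi2.symm hi1.symm _ x.2 _ (hg _ _ y.2) _ (hg _ _ (hg _ _ z.2)) e
    rw [e1, zero_add] at e
    have e2 := h.inter hi1.symm (hg _ _ y.2)
      (eq_neg_of_add_eq_zero_left e ▸ neg_mem (hg _ _ (hg _ _ z.2)))
    rw [e2, zero_add] at e
    exact Prod.ext (Subtype.ext e1) (Prod.ext (Subtype.ext (ginj _ e2))
      (Subtype.ext (ginj _ (ginj _ e))))
  have hs := (hφ.bijective_of_nat_card_le (by
    rw [hV, Nat.card_prod, Nat.card_prod, h.cardW, hn]; exact le_of_eq (by ring))).2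
  have hs2 : Function.Surjective
      fun p : W i × (g - AddMonoidHom.id V).range => (p.1 : V) + p.2 := by
    intro v
    obtain ⟨⟨x, y, z⟩, rfl⟩ := hs v
    refine ⟨⟨x + y + z, ⟨_, (y : V) + z + g z, rfl⟩⟩, ?_⟩
    show ((x : V) + y + z) + (g (y + z + g z) - (y + z + g z)) = x + g y + g (g z)
    simp only [map_add]
    abel
  have h3 := Nat.card_le_card_of_surjective _ hs2
  rw [Nat.card_prod, h.cardW, hn, ← AddSubgroup.index_ker, ← hK, ← K.card_mul_index, h1] at h3
  have h4 : 0 < K.index := Nat.pos_of_ne_zero AddSubgroup.index_ne_zero_of_finite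
  exact (Nat.pow_le_pow_iff_right (by norm_num)).1 (Nat.le_of_mul_le_mul_right h3 h4)

theorem Fam.alg (h : Fam W s t)
    (hG : ∀ r : ℕ, r.Prime → 2 * r ∣ t + 1 → ∃ (g : V →+ V) (π : ι → ι),
      (∀ i x, x ∈ W i → g x ∈ W (π i)) ∧ (∀ x, g^[r] x = x) ∧ ∃ x, g x ≠ x) :
    (s, t) = (3, 5) ∨ (s, t) = (15, 17) := by
  obtain ⟨n, hn, ht, h2⟩ := h.params
  have hs := h.hs
  rcases Nat.lt_or_ge n 5 with h5 | h5
  · interval_cases n
    · omega
    · omega
    · left
      rw [show s = 3 by omega, show t = 5 by omega]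
    · exfalso
      obtain rfl : s = 7 := by omega
      obtain rfl : t = 9 := by omega
      obtain ⟨g, π, hg, hgr, hne⟩ := hG 5 (by norm_num) (by norm_num)
      have ho : orderOf (2 : ZMod 5) = 4 := (orderOf_eq_iff (by norm_num)).2 (by decide)
      obtain ⟨c, hc, h3, h4, h6⟩ := h.auto hn ht hg (by norm_num) (by norm_num) hgr hne
        (by rw [ho]; norm_num)
      rw [ho] at h4
      obtain rfl : c = 1 := by omega
      exact no_eight h h2 g π hg hgr (h.per hg hgr) (fun i hi => by have := h6 i hi; omega) h3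
    · right
      rw [show s = 15 by omega, show t = 17 by omega]
  · exfalso
    obtain ⟨m, rfl⟩ : ∃ m, n = m + 1 := ⟨n - 1, by omega⟩
    obtain ⟨r, hr, ho⟩ := bang (2 * m) (by omega) (by omega)
    have := Fact.mk hr
    have hr2 : r ≠ 2 := by
      rintro rfl
      rw [show (2 : ZMod 2) = 0 from ZMod.natCast_self 2, orderOf_zero] at ho
      omega
    have hd : r ∣ 2 ^ m + 1 := by
      rw [← ZMod.natCast_eq_zero_iff]
      push_cast
      have h3 : (2 : ZMod r) ^ m * 2 ^ m = 1 := by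
        rw [← pow_add, ← two_mul, ← ho, pow_orderOf_eq_one]
      rcases mul_self_eq_one_iff.1 h3 with h4 | h4
      · have := Nat.le_of_dvd (by omega) (orderOf_dvd_of_pow_eq_one h4)
        omega
      · rw [h4, neg_add_cancel]
    obtain ⟨g, π, hg, hgr, hne⟩ := hG r hr (by
      rw [show t + 1 = 2 * (2 ^ m + 1) by rw [pow_succ] at hn; omega]
      exact Nat.mul_dvd_mul_left 2 hd)
    obtain ⟨c, hc, -, ⟨k, h4⟩, -⟩ := h.auto hn ht hg hr hr2 hgr hne (by omega)
    rw [ho] at h4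
    rcases k with _ | _ | k
    · omega
    · omega
    · have : 2 * m * (k + 1 + 1) = 2 * m * k + 4 * m := by ring
      omega

end Pool.Agent.Lib.MP_c6b127_co.AF
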