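import Mathlib

/-!
The finite check used for order `(7, 9)`: vectors of `𝔽₂ ^ 9` are numbers below `512`.
-/

set_option autoImplicit false

namespace Pool.Agent.Lib.MP_c6b127_co.AF

/-- `x` if bit `k` of `n` is set, else `0`. -/
def bt (n k x : ℕ) : ℕ := cond (n.testBit k) x 0

/-- The linear map of order five, by columns. -/
def GS (n : ℕ) : ℕ :=
  bt n 0 2 ^^^ bt n 1 4 ^^^ bt n 2 8 ^^^ bt n 3 15 ^^^ bt n 4 32 ^^^ bt n 5 64 ^^^ bt n 6 128 ^^^
    bt n 7 240 ^^^ bt n 8 256

/-- The linear map of order five. -/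
def GG (n : ℕ) : ℕ :=
  Nat.xor (Nat.xor (Nat.mul (Nat.land n 119) 2) (Nat.mul (Nat.land (Nat.shiftRight n 3) 17) 15))
    (Nat.land n 256)

theorem GG_eq : ∀ n < 512, GG n = GS n ∧ GG n < 512 := by decide +kernel

/-- Bit test. -/
def tb (M v : ℕ) : Bool := Nat.beq (Nat.land 1 (Nat.shiftRight M v)) 1

theorem tb_eq (M v : ℕ) : tb M v = M.testBit v := by
  have h1 : Nat.land 1 (Nat.shiftRight M v) = (M >>> v) % 2 := Nat.one_and_eq_mod_two _
  rw [tb, h1, Nat.testBit, Nat.one_and_eq_mod_two]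
  rcases Nat.mod_two_eq_zero_or_one (M >>> v) with h | h <;> rw [h] <;> rfl

/-- The bit mask of a list. -/
def mk (l : List ℕ) : ℕ := List.rec 0 (fun x _ a => Nat.lor a (Nat.pow 2 x)) l

theorem tb_mk (l : List ℕ) (v : ℕ) : tb (mk l) v = true ↔ v ∈ l := by
  rw [tb_eq]
  induction l with
  | nil => simp [mk]
  | cons x l ih =>
    have : mk (x :: l) = mk l ||| 2 ^ x := rfl
    rw [this, Nat.testBit_or, Bool.or_eq_true, ih, Nat.testBit_two_pow, List.mem_cons,
      decide_eq_true_iff, or_comm, eq_comm]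

/-- Evaluate `n` first. -/
def frc (n : ℕ) (k : ℕ → Bool) : Bool := Nat.rec (k 0) (fun p _ => k (Nat.succ p)) n

theorem frc_eq (n : ℕ) (k : ℕ → Bool) : frc n k = k n := by cases n <;> rfl

/-- Evaluate a list first. -/
def frcL (l : List ℕ) : (List ℕ → Bool) → Bool :=
  List.rec (fun k => k []) (fun a _ ih k => frc a fun a' => ih fun l' => k (a' :: l')) l

theorem frcL_eq (l : List ℕ) (k : List ℕ → Bool) : frcL l k = k l := by
  induction l generalizing k with
  | nil => rfl
  | cons a l ih =>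
    have : frcL (a :: l) k = frc a fun a' => frcL l fun l' => k (a' :: l') := rfl
    rw [this, frc_eq, ih]

/-- The span of `1`, `16`, `m`. -/
def Wl (m : ℕ) : List ℕ := [0, 1, 16, 1 ^^^ 16, m, m ^^^ 1, m ^^^ 16, m ^^^ (1 ^^^ 16)]

/-- All sums of an element of `a` and an element of `b`. -/
def sm (a b : List ℕ) : List ℕ := a.flatMap fun x => b.map fun y => Nat.xor x y

/-- No three-dimensional subspace has all its nonzero vectors in `C`. -/
def no3 (C : List ℕ) (M : ℕ) : Bool :=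
  C.all fun u => frcL (C.filter fun v => tb M (Nat.xor u v)) fun D => D.all fun v =>
    D.all fun w => !(tb M (Nat.xor v w) && tb M (Nat.xor u (Nat.xor v w)))

/-- The candidates. -/
def cands (M1 M2 : ℕ) : List ℕ := (List.range 512).filter fun v =>
  !tb M2 v && !tb M1 (Nat.xor v (GG v)) && !tb M1 (Nat.xor v (GG (GG v)))

/-- The check for one value of `m`. -/
def chk (m : ℕ) : Bool :=
  [0, 1, 16, 1 ^^^ 16].contains m ||
  frcL (Wl m) fun w0 => frcL (w0.map GG) fun w1 => frcL (w1.map GG) fun w2 =>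
  frcL (w2.map GG) fun w3 => frcL (w3.map GG) fun w4 =>
  frc (mk (sm w1 w2 ++ sm w1 w3)) fun B =>
  (w0.any fun w => w != 0 && tb B w) ||
  frc (mk (w0 ++ w1 ++ w2 ++ w3 ++ w4)) fun M1 =>
  frc (mk (sm w0 w1 ++ sm w0 w2 ++ sm w0 w3 ++ sm w0 w4 ++ sm w1 w2 ++ sm w1 w3 ++ sm w1 w4 ++
    sm w2 w3 ++ sm w2 w4 ++ sm w3 w4)) fun M2 =>
  frcL (cands M1 M2) fun C => frc (mk C) fun M => no3 C M

theorem chk_all : (List.range 512).all chk = true := by decide +kernel

/-- A combination of `a, b, c, d, e`. -/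
def comb (p a b c d e : ℕ) : ℕ := bt p 0 a ^^^ bt p 1 b ^^^ bt p 2 c ^^^ bt p 3 d ^^^ bt p 4 e

/-- The span of `1` and `16`. -/
def El : List ℕ := [0, 1, 16, 1 ^^^ 16]

theorem inj_all : frc (mk (sm El (sm (El.map GG) ((El.map GG).map GG)))) (fun B =>
    (List.range 512).all fun a => a == 0 || frc (GG a) fun b => frc (GG b) fun c =>
      frc (GG c) fun d => frc (GG d) fun e => (List.range 32).any fun p =>
      frc (comb p a b c d e) fun v => v == 256 || (v != 0 && tb B v)) = true := by decide +kernel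

end Pool.Agent.Lib.MP_c6b127_co.AF
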