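import Pool.Agent.Lib.MP_c6b127_co.AF.Params
import Pool.Agent.Lib.MP_c6b127_co.AF.Check

/-!
Order `(7, 9)`: no additive map of order five permutes the ten subgroups without fixing one.
-/

set_option autoImplicit false

namespace Pool.Agent.Lib.MP_c6b127_co.AF

variable {V ι : Type} [AddCommGroup V]

/-- `x` if bit `k` of `n` is set, else `0`. -/
def bv (n k : ℕ) (x : V) : V := cond (n.testBit k) x 0

/-- The vector with coordinates the bits of `n`. -/
def dec (g : V →+ V) (a b f : V) (n : ℕ) : V :=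
  bv n 0 a + bv n 1 (g a) + bv n 2 (g (g a)) + bv n 3 (g (g (g a))) + bv n 4 b + bv n 5 (g b) +
    bv n 6 (g (g b)) + bv n 7 (g (g (g b))) + bv n 8 f

theorem bv_xor (h2 : ∀ x : V, x + x = 0) (m n k : ℕ) (x : V) :
    bv (m ^^^ n) k x = bv m k x + bv n k x := by
  simp only [bv, Nat.testBit_xor]
  cases m.testBit k <;> cases n.testBit k <;> simp [h2]

theorem dec_xor (h2 : ∀ x : V, x + x = 0) (g : V →+ V) (a b f : V) (m n : ℕ) :
    dec g a b f (m ^^^ n) = dec g a b f m + dec g a b f n := by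
  simp only [dec, bv_xor h2]
  abel

theorem dec_zero (g : V →+ V) (a b f : V) : dec g a b f 0 = 0 := by simp [dec, bv]

theorem dec_bt (g : V →+ V) (a b f : V) (n k x : ℕ) :
    dec g a b f (bt n k x) = bv n k (dec g a b f x) := by
  simp only [bt, bv]
  cases n.testBit k <;> simp [dec_zero]

theorem map_bv (g : V →+ V) (n k : ℕ) (x : V) : g (bv n k x) = bv n k (g x) := by
  simp only [bv]
  cases n.testBit k <;> simp

theorem dec_GG (h2 : ∀ x : V, x + x = 0) {g : V →+ V} {a b f : V}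
    (ha : g (g (g (g a))) = a + g a + g (g a) + g (g (g a)))
    (hb : g (g (g (g b))) = b + g b + g (g b) + g (g (g b))) (hf : g f = f) {n : ℕ} (hn : n < 512) :
    dec g a b f (GG n) = g (dec g a b f n) := by
  rw [(GG_eq n hn).1]
  simp only [GS, dec_xor h2, dec_bt]
  conv_rhs => simp only [dec, map_add, map_bv, ha, hb, hf]
  simp [dec, bv, Nat.testBit]

theorem mem_sm {a b : List ℕ} {v : ℕ} (h : v ∈ sm a b) : ∃ x ∈ a, ∃ y ∈ b, v = x ^^^ y := by
  simp only [sm, List.mem_flatMap, List.mem_map] at h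
  obtain ⟨x, hx, y, hy, rfl⟩ := h
  exact ⟨x, hx, y, hy, rfl⟩

theorem xor_lt {a b : ℕ} (ha : a < 512) (hb : b < 512) : a ^^^ b < 512 :=
  Nat.xor_lt_two_pow (n := 9) ha hb

variable [Fintype V] [Fintype ι] {W : ι → AddSubgroup V}

theorem no_eight (h : Fam W 7 9) (h2 : ∀ x : V, x + x = 0) (g : V →+ V) (π : ι → ι)
    (hg : ∀ i x, x ∈ W i → g x ∈ W (π i)) (g5 : ∀ x, g (g (g (g (g x)))) = x)
    (π5 : ∀ i, π (π (π (π (π i)))) = i) (hπ : ∀ i, π i ≠ i)
    (hfix : Nat.card {x // g x = x} = 2) : False := by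
  classical
  have addz : ∀ x y : V, x + y = 0 → x = y := fun x y hxy => by
    rw [← add_zero x, ← h2 y, ← add_assoc, hxy, zero_add]
  have ginj : ∀ x, g x = 0 → x = 0 := fun x hx => by rw [← g5 x, hx]; simp
  have πinj : ∀ i j, π i = π j → i = j := fun i j hij => by rw [← π5 i, hij, π5]
  have π2 : ∀ i, π (π i) ≠ i := fun i hi => hπ i (by have := π5 i; rwa [hi, hi] at this)
  have π3 : ∀ i, π (π (π i)) ≠ i := fun i hi => π2 i (by have := π5 i; rwa [hi] at this)
  have π4 : ∀ i, π (π (π (π i))) ≠ i := fun i hi => hπ i (by have := π5 i; rwa [hi] at this)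
  obtain ⟨⟨f, hf⟩, hf0, hfu⟩ := (Nat.card_eq_two_iff' (⟨0, map_zero g⟩ : {x // g x = x})).1 hfix
  have hf0' : f ≠ 0 := fun h0 => hf0 (Subtype.ext h0)
  obtain ⟨i⟩ : Nonempty ι := (Nat.card_pos_iff.1 (by rw [h.cardI]; omega)).1
  have av : ∀ k (S : Finset V), S.card ≤ 4 → ∃ a ∈ W k, a ∉ S := fun k S hS =>
    Fam.avoid (W k) S (by rw [h.cardW]; omega)
  have hT : ∀ x : V, g (g (g (g x))) = x + g x + g (g x) + g (g (g x)) ∨
      g (g (g (g x))) + (x + g x + g (g x) + g (g (g x))) = f := by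
    intro x
    by_cases hx : g (g (g (g x))) + (x + g x + g (g x) + g (g (g x))) = 0
    · exact Or.inl (addz _ _ hx)
    · refine Or.inr (congrArg Subtype.val (hfu ⟨_, ?_⟩ fun h0 => hx (congrArg Subtype.val h0)))
      simp only [map_add, g5]
      abel
  have pick : ∀ e : V, ∃ a ∈ W i, g (g (g (g a))) = a + g a + g (g a) + g (g (g a)) ∧
      a ≠ 0 ∧ a ≠ e := by
    intro e
    obtain ⟨a, ha, ha'⟩ := av i {0, e} (Finset.card_le_two.trans (by norm_num))
    obtain ⟨b, hb, hb'⟩ := av i {0, e, a, e + a} Finset.card_le_four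
    simp only [Finset.mem_insert, Finset.mem_singleton, not_or] at ha' hb'
    rcases hT a with h3 | h3
    · exact ⟨a, ha, h3, ha'⟩
    rcases hT b with h4 | h4
    · exact ⟨b, hb, h4, hb'.1, hb'.2.1⟩
    refine ⟨a + b, add_mem ha hb, addz _ _ ?_, fun h0 => hb'.2.2.1 (addz _ _ h0).symm,
      fun h0 => hb'.2.2.2 ?_⟩
    · rw [← h2 f]
      nth_rewrite 1 [← h3]
      rw [← h4]
      simp only [map_add]
      abel
    · rw [← h0, add_right_comm, h2, zero_add]
  obtain ⟨a, ha, hTa, ha0, -⟩ := pick 0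
  obtain ⟨b, hb, hTb, hb0, hba⟩ := pick a
  set d : ℕ → V := dec g a b f with hd
  have dx : ∀ m n, d (m ^^^ n) = d m + d n := dec_xor h2 g a b f
  have dx' : ∀ m n, d (Nat.xor m n) = d m + d n := dx
  have dG : ∀ n < 512, d (GG n) = g (d n) := fun n hn => dec_GG h2 hTa hTb hf hn
  have d0 : d 0 = 0 := dec_zero g a b f
  have d1 : d 1 = a := by simp [hd, dec, bv, Nat.testBit]
  have d16 : d 16 = b := by simp [hd, dec, bv, Nat.testBit]
  have d256 : d 256 = f := by simp [hd, dec, bv, Nat.testBit]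
  have gl : ∀ n < 512, GG n < 512 := fun n hn => (GG_eq n hn).2
  have dE : ∀ x ∈ El, x < 512 ∧ d x ∈ W i ∧ (d x = 0 → x = 0) := by
    intro x hx
    simp only [El, List.mem_cons, List.not_mem_nil, or_false] at hx
    rcases hx with rfl | rfl | rfl | rfl
    · simp [d0]
    · simp [d1, ha, ha0]
    · simp [d16, hb, hb0]
    · rw [dx, d1, d16]
      exact ⟨by decide, add_mem ha hb, fun h0 => absurd (addz _ _ h0).symm hba⟩
  have inj : ∀ n < 512, d n = 0 → n = 0 := by
    intro n hn h0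
    by_contra hn0
    have hc := inj_all
    simp only [frc_eq, List.all_eq_true, List.mem_range, Bool.or_eq_true, beq_iff_eq,
      List.any_eq_true, Bool.and_eq_true, bne_iff_ne, tb_mk] at hc
    obtain ⟨p, -, hp⟩ := (hc n hn).resolve_left hn0
    have hz : d (comb p n (GG n) (GG (GG n)) (GG (GG (GG n))) (GG (GG (GG (GG n))))) = 0 := by
      have l1 := gl _ hn
      have l2 := gl _ l1
      have l3 := gl _ l2
      simp only [comb, dx]
      simp only [hd, dec_bt]
      simp only [← hd, dG _ l3, dG _ l2, dG _ l1, dG _ hn, h0, map_zero]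
      simp [bv]
    rcases hp with hp | ⟨hp0, hp⟩
    · rw [hp, d256] at hz
      exact hf0' hz
    · obtain ⟨x, hx, y', hy, he⟩ := mem_sm hp
      obtain ⟨y1, hy1, z1, hz1, rfl⟩ := mem_sm hy
      obtain ⟨y, hy3, rfl⟩ := List.mem_map.1 hy1
      obtain ⟨z2, hz2, rfl⟩ := List.mem_map.1 hz1
      obtain ⟨z, hz', rfl⟩ := List.mem_map.1 hz2
      obtain ⟨-, x1, x2⟩ := dE x hx
      obtain ⟨y0, y1, y2⟩ := dE y hy3
      obtain ⟨z0, z1, z2⟩ := dE z hz'
      rw [he, dx, dx, dG _ (gl _ z0), dG _ z0, dG _ y0, ← add_assoc] at hz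
      have e1 := h.tri _ _ _ (hπ i).symm (π2 i).symm (hπ _).symm _ x1 _ (hg _ _ y1) _
        (hg _ _ (hg _ _ z1)) hz
      rw [e1, zero_add] at hz
      have e2 := h.inter (hπ (π i)).symm (hg _ _ y1) (addz _ _ hz ▸ hg _ _ (hg _ _ z1))
      rw [e2, zero_add] at hz
      apply hp0
      rw [he, x2 e1, y2 (ginj _ e2), z2 (ginj _ (ginj _ hz))]
      rfl
  have surj : ∀ x : V, ∃ n < 512, d n = x := by
    have hi : Function.Injective fun n : Fin 512 => d n := by
      intro m n hmn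
      have := inj _ (xor_lt m.2 n.2) (by rw [dx, show d m = d n from hmn, h2])
      exact Fin.ext (Nat.xor_eq_zero_iff.1 this)
    intro x
    obtain ⟨n, hn⟩ := (hi.bijective_of_nat_card_le (by rw [h.cardV]; simp)).2 x
    exact ⟨n, n.2, hn⟩
  obtain ⟨c, hc, hc'⟩ := av i {0, a, b, a + b} Finset.card_le_four
  obtain ⟨m, hm, rfl⟩ := surj c
  let P : ι → List ℕ → Prop := fun k l => ∀ v ∈ l, v < 512 ∧ d v ∈ W k
  have Pm : ∀ k l, P k l → P (π k) (l.map GG) := by
    intro k l hl v hv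
    obtain ⟨u, hu, rfl⟩ := List.mem_map.1 hv
    exact ⟨gl _ (hl u hu).1, by rw [dG _ (hl u hu).1]; exact hg _ _ (hl u hu).2⟩
  have P0 : P i (Wl m) := by
    intro v hv
    simp only [Wl, List.mem_cons, List.not_mem_nil, or_false] at hv
    rcases hv with rfl | rfl | rfl | rfl | rfl | rfl | rfl | rfl <;>
      refine ⟨by first | decide | exact hm | exact xor_lt hm (by decide), ?_⟩ <;>
      (try simp only [dx, d0, d1, d16]) <;>
      first
        | exact zero_mem _
        | assumption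
        | exact add_mem ‹_› ‹_›
        | exact add_mem hc (add_mem ha hb)
  have P1 := Pm _ _ P0
  have P2 := Pm _ _ P1
  have P3 := Pm _ _ P2
  have P4 := Pm _ _ P3
  have ex2 : ∀ {k l j : ι} {u w : List ℕ} {v : ℕ}, P k u → P l w → k ≠ l → j ≠ k → j ≠ l →
      v ∈ sm u w → d v ∈ W j → d v = 0 := by
    intro k l j u w v hu hw h3 h4 h5 hv hj
    obtain ⟨x, hx, y, hy, rfl⟩ := mem_sm hv
    refine h.tri j k l h4 h5 h3 _ hj _ (hu x hx).2 _ (hw y hy).2 ?_
    rw [dx, add_assoc, h2]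
  have hk := List.all_eq_true.1 chk_all m (List.mem_range.2 hm)
  simp only [chk, frc_eq, frcL_eq, Bool.or_eq_true, List.contains_iff_mem, List.any_eq_true,
    Bool.and_eq_true, bne_iff_ne, tb_mk] at hk
  rcases hk with hk | ⟨w, hw, hw0, hk⟩ | hk
  · simp only [List.mem_cons, List.not_mem_nil, or_false] at hk
    rcases hk with rfl | rfl | rfl | rfl <;> simp [dx, d0, d1, d16, -Nat.reduceXor] at hc'
  · refine hw0 (inj _ (P0 w hw).1 ?_)
    rcases List.mem_append.1 hk with hk | hk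
    · exact ex2 P1 P2 (hπ _).symm (hπ _).symm (π2 _).symm hk (P0 w hw).2
    · exact ex2 P1 P3 (π2 _).symm (hπ _).symm (π3 _).symm hk (P0 w hw).2
  obtain ⟨j, hj⟩ : ∃ j, j ∉ ({i, π i, π (π i), π (π (π i)), π (π (π (π i)))} : Finset ι) := by
    by_contra hcon
    push Not at hcon
    have h3 := (Finset.card_le_card fun j (_ : j ∈ Finset.univ) => hcon j).trans
      Finset.card_le_five
    have h4 := h.cardI
    rw [Nat.card_eq_fintype_card] at h4
    rw [Finset.card_univ] at h3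
    omega
  have cl : ∀ k, k ∉ ({i, π i, π (π i), π (π (π i)), π (π (π (π i)))} : Finset ι) →
      π k ∉ ({i, π i, π (π i), π (π (π i)), π (π (π (π i)))} : Finset ι) := by
    intro k hk
    simp only [Finset.mem_insert, Finset.mem_singleton, not_or] at hk ⊢
    exact ⟨fun e => hk.2.2.2.2 (πinj _ _ (by rw [e, π5])), fun e => hk.1 (πinj _ _ e),
      fun e => hk.2.1 (πinj _ _ e), fun e => hk.2.2.1 (πinj _ _ e), fun e => hk.2.2.2.1 (πinj _ _ e)⟩
  have hj1 := cl _ hj
  have hj2 := cl _ hj1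
  simp only [Finset.mem_insert, Finset.mem_singleton, not_or] at hj hj1 hj2
  obtain ⟨j0, j1, j2, j3, j4⟩ := hj
  generalize hC : cands _ _ = C at hk
  have cand : ∀ v < 512, d v ∈ W j → d v ≠ 0 → v ∈ C := by
    intro v hv hvj hv0
    rw [← hC]
    simp only [cands, List.mem_filter, List.mem_range, Bool.and_eq_true, Bool.not_eq_true',
      ← Bool.not_eq_true, tb_mk, List.mem_append]
    refine ⟨hv, ⟨fun e => hv0 ?_, fun e => ?_⟩, fun e => ?_⟩
    · rcases e with ((((((((e | e) | e) | e) | e) | e) | e) | e) | e) | e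
      · exact ex2 P0 P1 (hπ _).symm j0 j1 e hvj
      · exact ex2 P0 P2 (π2 _).symm j0 j2 e hvj
      · exact ex2 P0 P3 (π3 _).symm j0 j3 e hvj
      · exact ex2 P0 P4 (π4 _).symm j0 j4 e hvj
      · exact ex2 P1 P2 (hπ _).symm j1 j2 e hvj
      · exact ex2 P1 P3 (π2 _).symm j1 j3 e hvj
      · exact ex2 P1 P4 (π3 _).symm j1 j4 e hvj
      · exact ex2 P2 P3 (hπ _).symm j2 j3 e hvj
      · exact ex2 P2 P4 (π2 _).symm j2 j4 e hvj
      · exact ex2 P3 P4 (hπ _).symm j3 j4 e hvj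
    · have e1 : ∀ k, j ≠ k → π j ≠ k → d (Nat.xor v (GG v)) ∉ W k := fun k k1 k2 => by
        rw [dx', dG _ hv]
        exact h.notmem (hπ j).symm k1 k2 hvj (hg _ _ hvj) hv0
      rcases e with (((e | e) | e) | e) | e
      · exact e1 _ j0 hj1.1 (P0 _ e).2
      · exact e1 _ j1 hj1.2.1 (P1 _ e).2
      · exact e1 _ j2 hj1.2.2.1 (P2 _ e).2
      · exact e1 _ j3 hj1.2.2.2.1 (P3 _ e).2
      · exact e1 _ j4 hj1.2.2.2.2 (P4 _ e).2
    · have e1 : ∀ k, j ≠ k → π (π j) ≠ k → d (Nat.xor v (GG (GG v))) ∉ W k := fun k k1 k2 => by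
        rw [dx', dG _ (gl _ hv), dG _ hv]
        exact h.notmem (π2 j).symm k1 k2 hvj (hg _ _ (hg _ _ hvj)) hv0
      rcases e with (((e | e) | e) | e) | e
      · exact e1 _ j0 hj2.1 (P0 _ e).2
      · exact e1 _ j1 hj2.2.1 (P1 _ e).2
      · exact e1 _ j2 hj2.2.2.1 (P2 _ e).2
      · exact e1 _ j3 hj2.2.2.2.1 (P3 _ e).2
      · exact e1 _ j4 hj2.2.2.2.2 (P4 _ e).2
  obtain ⟨x, hx, hx0⟩ := h.exne j
  obtain ⟨y, hy, hy'⟩ := av j {0, x} (Finset.card_le_two.trans (by norm_num))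
  obtain ⟨z, hz, hz'⟩ := av j {0, x, y, x + y} Finset.card_le_four
  simp only [Finset.mem_insert, Finset.mem_singleton, not_or] at hy' hz'
  obtain ⟨u, hu, rfl⟩ := surj x
  obtain ⟨v, hv, rfl⟩ := surj y
  obtain ⟨w, hw, rfl⟩ := surj z
  have c2 : ∀ p < 512, ∀ q < 512, d p ∈ W j → d q ∈ W j → d q ≠ d p → Nat.xor p q ∈ C :=
    fun p hp q hq p1 q1 hne => cand _ (xor_lt hp hq) (by rw [dx']; exact add_mem p1 q1)
      (by rw [dx']; exact fun h0 => hne (addz _ _ h0).symm)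
  simp only [no3, frcL_eq, List.all_eq_true, List.mem_filter, tb_mk, Bool.not_eq_true',
    ← Bool.not_eq_true, Bool.and_eq_true] at hk
  refine hk u (cand u hu hx hx0) v ⟨cand v hv hy hy'.1, c2 u hu v hv hx hy hy'.2⟩ w
    ⟨cand w hw hz hz'.1, c2 u hu w hw hx hz hz'.2.1⟩ ⟨c2 v hv w hw hy hz hz'.2.2.1, ?_⟩
  refine c2 u hu _ (xor_lt hv hw) hx (by rw [dx']; exact add_mem hy hz) fun e => hz'.2.2.2 ?_
  rw [← e, dx', add_right_comm, h2, zero_add]

end Pool.Agent.Lib.MP_c6b127_co.AF
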