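import Mathlib

/-!
The family of lines through the origin of a generalised quadrangle with an abelian point-regular
group: counting, the inequality `t ≤ s ^ 2`, and the parameters.
-/

set_option autoImplicit false

namespace Pool.Agent.Lib.MP_c6b127_co.AF

open Finset

theorem fix_mod {α : Type} [Finite α] (f : α → α) {r : ℕ} (hr : r.Prime)
    (h : ∀ x, f^[r] x = x) : Nat.card α ≡ Nat.card {x // f x = x} [MOD r] := by
  classical
  have := Fact.mk hr
  have := Fintype.ofFinite α
  have hf : (show Function.End α from f) ^ r ^ 1 = 1 := by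
    rw [pow_one]
    exact (hom_coe_pow (fun g : Function.End α => g) rfl (fun g h => rfl) f r).trans (funext h)
  have h1 := Equiv.Perm.card_fixedPoints_modEq hf
  rw [← Nat.card_eq_fintype_card, ← Nat.card_eq_fintype_card] at h1
  exact h1

theorem cube_nonneg {V : Type} [Fintype V] (M : V → V → ℤ) :
    0 ≤ ∑ x, ∑ y, (∑ u, M x u * M y u) ^ 3 := by
  have h1 : ∀ x y, (∑ u, M x u * M y u) ^ 3 = ∑ p : V × V × V,
      (M x p.1 * M x p.2.1 * M x p.2.2) * (M y p.1 * M y p.2.1 * M y p.2.2) := by
    intro x y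
    rw [pow_succ', sq, sum_mul_sum, mul_sum]
    simp only [Fintype.sum_prod_type, sum_mul, mul_sum]
    rw [sum_comm]
    refine sum_congr rfl fun a _ => ?_
    rw [sum_comm]
    refine sum_congr rfl fun b _ => sum_congr rfl fun c _ => by ring
  simp only [h1]
  have h2 : ∀ x : V, ∑ y, ∑ p : V × V × V,
      (M x p.1 * M x p.2.1 * M x p.2.2) * (M y p.1 * M y p.2.1 * M y p.2.2) =
      ∑ p : V × V × V, ∑ y,
      (M x p.1 * M x p.2.1 * M x p.2.2) * (M y p.1 * M y p.2.1 * M y p.2.2) := fun x => sum_comm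
  simp only [h2]
  rw [sum_comm]
  refine sum_nonneg fun p _ => ?_
  rw [← sum_mul_sum]
  exact mul_self_nonneg _

/-- The subgroups formed by the lines through the origin. -/
structure Fam {V ι : Type} [AddCommGroup V] (W : ι → AddSubgroup V) (s t : ℕ) : Prop where
  cardW : ∀ i, Nat.card (W i) = s + 1
  cardI : Nat.card ι = t + 1
  ex : ∀ i x, x ∉ W i → ∃ j, ∃ a ∈ W i, ∃ b ∈ W j, x = a + b
  tri : ∀ i j k, i ≠ j → i ≠ k → j ≠ k → ∀ a ∈ W i, ∀ b ∈ W j, ∀ c ∈ W k, a + b + c = 0 → a = 0
  hs : 2 ≤ s
  ht : 2 ≤ t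

variable {V ι : Type} [AddCommGroup V] [Fintype V] [Fintype ι] {W : ι → AddSubgroup V} {s t : ℕ}

open Classical in
/-- Indicator of `W i`. -/
noncomputable def ind (W : ι → AddSubgroup V) (i : ι) (x : V) : ℤ := if x ∈ W i then 1 else 0

open Classical in
/-- The function with values `s ^ 2`, `-s`, `1`. -/
noncomputable def FF (W : ι → AddSubgroup V) (s t : ℕ) (x : V) : ℤ :=
  1 + (if x = 0 then ((s + 1) * (s + t) : ℤ) else 0) - (s + 1) * ∑ i, ind W i x

namespace Fam

omit [Fintype V] in
theorem third (h : Fam W s t) (i j : ι) : ∃ k, k ≠ i ∧ k ≠ j := by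
  classical
  by_contra hc
  push Not at hc
  have h1 : (univ : Finset ι) ⊆ {i, j} := fun k _ => by
    by_cases hk : k = i
    · simp [hk]
    · simp [hc k hk]
  have h2 := (card_le_card h1).trans card_le_two
  have h3 := h.cardI
  have := h.ht
  rw [Nat.card_eq_fintype_card] at h3
  rw [card_univ] at h2
  omega

omit [Fintype V] in
theorem inter (h : Fam W s t) {i j : ι} (hij : i ≠ j) {x : V} (hi : x ∈ W i) (hj : x ∈ W j) :
    x = 0 := by
  obtain ⟨k, h1, h2⟩ := h.third i j
  exact h.tri i j k hij h1.symm h2.symm x hi (-x) (neg_mem hj) 0 (zero_mem _) (by simp)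

omit [Fintype ι] in
theorem avoid (U : AddSubgroup V) (S : Finset V) (hS : S.card < Nat.card U) :
    ∃ a ∈ U, a ∉ S := by
  classical
  by_contra hc
  push Not at hc
  have h1 : (univ.filter (· ∈ U)) ⊆ S := fun a ha => hc a (by simpa using ha)
  have h2 := card_le_card h1
  rw [Nat.card_eq_fintype_card, Fintype.card_subtype] at hS
  omega

omit [Fintype ι] in
theorem exne (h : Fam W s t) (i : ι) : ∃ a ∈ W i, a ≠ 0 := by
  have := h.hs
  simpa using avoid (W i) {0} (by rw [h.cardW]; simp; omega)

omit [Fintype V] in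
theorem uniq (h : Fam W s t) {i j k : ι} {a b u c : V} (ha : a ∈ W i) (hb : b ∈ W j)
    (hu : u ∈ W i) (hc : c ∈ W k) (hx : a + b ∉ W i) (he : a + b = u + c) : j = k ∧ a = u := by
  have hj : i ≠ j := by rintro rfl; exact hx (add_mem ha hb)
  have hk : i ≠ k := by rintro rfl; exact hx (he ▸ add_mem hu hc)
  by_cases hjk : j = k
  · subst hjk
    refine ⟨rfl, sub_eq_zero.1 (h.inter hj (sub_mem ha hu) ?_)⟩
    rw [show a - u = c - b by rw [sub_eq_sub_iff_add_eq_add, he, add_comm]]
    exact sub_mem hc hb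
  · exfalso
    have := h.tri j i k hj.symm hjk hk b hb (a - u) (sub_mem ha hu) (-c) (neg_mem hc)
      (by rw [eq_sub_of_add_eq' he.symm]; abel)
    exact hx (by simpa [this] using ha)

omit [Fintype V] in
theorem A_zero (h : Fam W s t) : ∑ i, ind W i 0 = t + 1 := by
  have := h.cardI
  rw [Nat.card_eq_fintype_card] at this
  simp [ind, this]

omit [Fintype V] in
theorem A_one (h : Fam W s t) {i : ι} {x : V} (hx : x ∈ W i) (h0 : x ≠ 0) :
    ∑ j, ind W j x = 1 := by
  rw [sum_eq_single i]
  · simp [ind, hx]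
  · intro j _ hj
    simp only [ind, ite_eq_right_iff]
    exact fun hj' => absurd (h.inter hj hj' hx) h0
  · simp

omit [Fintype ι] in
theorem sum_ind (h : Fam W s t) (i : ι) : ∑ x, ind W i x = s + 1 := by
  classical
  have := h.cardW i
  rw [Nat.card_eq_fintype_card, Fintype.card_subtype] at this
  simp only [ind, sum_boole]
  exact_mod_cast this

theorem line (h : Fam W s t) (i : ι) (x : V) :
    ∑ u, ind W i u * ∑ j, ind W j (x - u) = 1 + (s + t) * ind W i x := by
  classical
  by_cases hx : x ∈ W i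
  · have : ∀ u, ind W i u * ∑ j, ind W j (x - u) = ind W i u + if u = x then (t : ℤ) else 0 := by
      intro u
      by_cases hu : u = x
      · subst hu
        rw [sub_self, h.A_zero]
        simp [ind, hx, add_comm]
      · by_cases hu' : u ∈ W i
        · rw [h.A_one (sub_mem hx hu') (sub_ne_zero.2 (Ne.symm hu))]
          simp [hu]
        · simp [ind, hu, hu']
    simp only [this, sum_add_distrib, h.sum_ind, sum_ite_eq', mem_univ, if_true]
    simp only [ind, hx, if_true]
    ring
  · obtain ⟨j, a, ha, b, hb, rfl⟩ := h.ex i x hx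
    have : ∀ u, ind W i u * ∑ j, ind W j (a + b - u) = if u = a then (1 : ℤ) else 0 := by
      intro u
      by_cases hu : u = a
      · subst hu
        rw [add_sub_cancel_left, h.A_one hb (by rintro rfl; exact hx (by simpa using ha))]
        simp [ind, ha]
      · by_cases hu' : u ∈ W i
        · rw [sum_eq_zero, mul_zero, if_neg hu]
          intro k _
          simp only [ind, ite_eq_right_iff]
          exact fun hk => absurd (h.uniq ha hb hu' hk hx (by abel)).2.symm hu
        · simp [ind, hu, hu']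
    simp only [this, sum_ite_eq', mem_univ, if_true]
    simp [ind, hx]

theorem lineF (h : Fam W s t) (i : ι) (x : V) : ∑ u, ind W i u * FF W s t (x - u) = 0 := by
  classical
  have : ∀ u, ind W i u * FF W s t (x - u) = ind W i u +
      (if u = x then (s + 1) * (s + t) * ind W i x else 0) -
      (s + 1) * (ind W i u * ∑ j, ind W j (x - u)) := by
    intro u
    by_cases hu : u = x
    · subst hu
      simp only [FF, sub_self, if_true]
      ring
    · simp only [FF, if_neg hu, if_neg (sub_ne_zero.2 (Ne.symm hu))]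
      ring
  simp only [this, sum_sub_distrib, sum_add_distrib, ← mul_sum, h.line, h.sum_ind, sum_ite_eq',
    mem_univ, if_true]
  ring

theorem sumF (h : Fam W s t) : ∑ x, FF W s t x = 0 := by
  have hι : Nonempty ι := (Nat.card_pos_iff.1 (by rw [h.cardI]; omega)).1
  obtain ⟨i⟩ := hι
  have h1 : ∑ x, ∑ u, ind W i u * FF W s t (x - u) = 0 := by simp [h.lineF]
  rw [sum_comm] at h1
  have h2 : ∀ u, ∑ x, FF W s t (x - u) = ∑ x, FF W s t x := fun u =>
    Equiv.sum_comp (Equiv.subRight u) (FF W s t)
  simp only [← mul_sum, h2, ← sum_mul, h.sum_ind] at h1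
  exact (mul_eq_zero.1 h1).resolve_left (by positivity)

theorem cardV (h : Fam W s t) : Nat.card V = (s + 1) * (s * t + 1) := by
  classical
  have h1 := h.sumF
  have h2 := h.cardI
  rw [Nat.card_eq_fintype_card] at h2 ⊢
  simp only [FF, sum_sub_distrib, sum_add_distrib, ← mul_sum, sum_ite_eq', mem_univ, if_true] at h1
  rw [sum_comm] at h1
  simp only [h.sum_ind, sum_const, card_univ, h2, nsmul_eq_mul] at h1
  zify
  push_cast at h1
  linarith

theorem conv (h : Fam W s t) (x : V) :
    ∑ u, FF W s t u * FF W s t (x - u) = (s + 1) * (s + t) * FF W s t x := by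
  classical
  have : ∀ u, FF W s t u * FF W s t (x - u) = FF W s t (x - u) +
      (if u = 0 then (s + 1) * (s + t) * FF W s t x else 0) -
      (s + 1) * ∑ i, ind W i u * FF W s t (x - u) := by
    intro u
    rw [← sum_mul]
    nth_rewrite 1 [FF]
    by_cases hu : u = 0
    · subst hu
      simp only [if_true, sub_zero]
      ring
    · simp only [if_neg hu]
      ring
  simp only [this, sum_sub_distrib, sum_add_distrib, ← mul_sum, sum_ite_eq', mem_univ, if_true]
  rw [sum_comm]
  simp only [h.lineF]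
  rw [show ∑ u, FF W s t (x - u) = ∑ u, FF W s t u from
    Equiv.sum_comp (Equiv.subLeft x) (FF W s t), h.sumF]
  simp

theorem higman (h : Fam W s t) : t ≤ s ^ 2 := by
  classical
  have h1 := cube_nonneg fun x u : V => FF W s t (x - u)
  have h2 : ∀ x y : V, ∑ u, FF W s t (x - u) * FF W s t (y - u) =
      (s + 1) * (s + t) * FF W s t (x - y) := by
    intro x y
    rw [← h.conv, ← Equiv.sum_comp (Equiv.subLeft x)]
    refine sum_congr rfl fun u _ => ?_
    rw [Equiv.subLeft_apply, sub_sub_cancel,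
      show y - (x - u) = -(x - y - u) by abel]
    simp [FF, ind, neg_mem_iff, neg_eq_zero, -neg_sub]
  have h3 : ∀ x : V, FF W s t x ^ 3 = (s - s ^ 2) + (s ^ 2 - s + 1) * FF W s t x +
      if x = 0 then (s ^ 6 - s + s ^ 2 - (s ^ 2 - s + 1) * s ^ 2 : ℤ) else 0 := by
    intro x
    by_cases hx : x = 0
    · subst hx
      simp only [FF, if_true, h.A_zero]
      ring
    · by_cases hx' : ∃ i, x ∈ W i
      · obtain ⟨i, hi⟩ := hx'
        simp only [FF, if_neg hx, h.A_one hi hx]
        ring
      · push Not at hx'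
        simp only [FF, if_neg hx, ind, hx', if_false, sum_const_zero]
        ring
  have h4 : ∀ x : V, ∑ y, FF W s t (x - y) ^ 3 = s ^ 2 * (s ^ 2 - 1) * (s ^ 2 - t) := by
    intro x
    rw [show ∑ y, FF W s t (x - y) ^ 3 = ∑ y, FF W s t y ^ 3 from
      Equiv.sum_comp (Equiv.subLeft x) fun y => FF W s t y ^ 3]
    have h5 := h.cardV
    rw [Nat.card_eq_fintype_card] at h5
    simp only [h3, sum_add_distrib, ← mul_sum, h.sumF, sum_ite_eq', mem_univ, if_true, sum_const,
      card_univ, h5, nsmul_eq_mul]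
    push_cast
    ring
  simp only [h2, mul_pow, ← mul_sum, h4, sum_const, card_univ, nsmul_eq_mul] at h1
  have hs : (2 : ℤ) ≤ s := by exact_mod_cast h.hs
  have hV : (0 : ℤ) < Fintype.card V := by exact_mod_cast Fintype.card_pos
  by_contra hc
  have hc' : (s : ℤ) ^ 2 - t < 0 := by
    have : (s : ℤ) ^ 2 < t := by exact_mod_cast not_le.1 hc
    linarith
  have h6 : (0 : ℤ) < s ^ 2 * (s ^ 2 - 1) := mul_pos (by positivity) (by nlinarith)
  have h7 := mul_neg_of_pos_of_neg h6 hc'
  have h8 : (0 : ℤ) < (s + 1) ^ 3 * (s + t) ^ 3 := by positivity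
  have h9 := mul_neg_of_pos_of_neg h8 (mul_neg_of_pos_of_neg hV h7)
  nlinarith

end Fam

end Pool.Agent.Lib.MP_c6b127_co.AF
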