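import Pool.Agent.Lib.MP_c6b127_co.AF.Alg

/-!
From the quadrangle to the family of subgroups.
-/

set_option autoImplicit false

namespace Pool.Agent.Lib.MP_c6b127_co.AF

open MulAction

variable {P L : Type} {G : Type} [Group G] [MulAction G P]

theorem exists_add (N : Subgroup G) (hN : N.Normal)
    (hc : ∀ a ∈ N, ∀ b ∈ N, ∀ p : P, a • b • p = b • a • p)
    (htr : ∀ p q : P, ∃ a ∈ N, a • p = q) (o : P) :
    ∃ _ : AddCommGroup P, (∀ p : P, ∃ a : G, ∀ q, a • q = p + q) ∧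
      ∀ g : G, g • (0 : P) = 0 → ∀ p q : P, g • (p + q) = g • p + g • q := by
  choose τ hτ hτo using htr o
  have key : ∀ a ∈ N, ∀ q : P, τ (a • o) • q = a • q := by
    intro a ha q
    rw [← hτo q, hc _ (hτ _) _ (hτ _), hτo, hc _ (hτ _) _ ha]
  let _ : Add P := ⟨fun p q => τ p • q⟩
  let _ : Zero P := ⟨o⟩
  let _ : Neg P := ⟨fun p => (τ p)⁻¹ • o⟩
  let _ : AddGroup P := AddGroup.ofLeftAxioms
    (fun a b c => by
      show τ (τ a • b) • c = τ a • τ b • c
      rw [← mul_smul, ← key _ (N.mul_mem (hτ a) (hτ b)), mul_smul, hτo])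
    (fun a => by
      show τ o • a = a
      simpa using key 1 N.one_mem a)
    (fun a => by
      show τ ((τ a)⁻¹ • o) • a = o
      rw [key _ (N.inv_mem (hτ a)), inv_smul_eq_iff, hτo])
  refine ⟨{ add_comm := fun a b => ?_ }, fun p => ⟨τ p, fun q => rfl⟩, fun g hg p q => ?_⟩
  · show τ a • b = τ b • a
    conv_lhs => rw [← hτo b, hc _ (hτ _) _ (hτ _), hτo]
  · show g • τ p • q = τ (g • p) • g • q
    have hg' : g⁻¹ • o = o := inv_smul_eq_iff.2 (Eq.symm hg)
    have h1 := key _ (hN.conj_mem _ (hτ p) g) (g • q)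
    rw [mul_smul, mul_smul, hg', hτo] at h1
    rw [h1, mul_smul, mul_smul, inv_smul_smul]

variable [MulAction G L] [AddCommGroup P] [Finite P] [Finite L]

/-- A quadrangle on an abelian group whose translations are induced by `G`. -/
structure Quad (I : P → L → Prop) (s t : ℕ) (τ : P → G) : Prop where
  hs : 2 ≤ s
  ht : 2 ≤ t
  hl : ∀ l : L, Set.ncard {p : P | I p l} = s + 1
  hp : ∀ p : P, Set.ncard {l : L | I p l} = t + 1
  h2 : ∀ (p q : P) (l m : L), I p l → I q l → I p m → I q m → p = q ∨ l = m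
  hq : ∀ (p : P) (l : L), ¬ I p l → ∃! x : P × L, I p x.2 ∧ I x.1 x.2 ∧ I x.1 l
  hI : ∀ (g : G) (p : P) (l : L), I (g • p) (g • l) ↔ I p l
  hτ : ∀ p q : P, τ p • q = p + q
  hadd : ∀ g : G, g • (0 : P) = 0 → ∀ p q : P, g • (p + q) = g • p + g • q

namespace Quad

variable {I : P → L → Prop} {s t : ℕ} {τ : P → G}

omit [Finite P] [Finite L] in
theorem tr (h : Quad I s t τ) (a p : P) (l : L) : I (a + p) (τ a • l) ↔ I p l := by
  rw [← h.hτ, h.hI]

omit [Finite P] [Finite L] in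
theorem third (h : Quad I s t τ) (l : L) (a b : P) : ∃ c, I c l ∧ c ≠ a ∧ c ≠ b := by
  by_contra hc
  push Not at hc
  have h1 : {p : P | I p l} ⊆ {a, b} := fun c hcl => by
    by_cases hca : c = a
    · exact Or.inl hca
    · exact Or.inr (hc c hcl hca)
  have h2 := (Set.ncard_le_ncard h1).trans (Set.ncard_insert_le a {b})
  rw [h.hl, Set.ncard_singleton] at h2
  have := h.hs
  omega

omit [Finite P] [Finite L] in
theorem tfix (h : Quad I s t τ) {l : L} (h0 : I 0 l) {a : P} (ha : I a l) : τ a • l = l := by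
  obtain ⟨c, hc, hca, hc0⟩ := h.third l a 0
  have ha' : I a (τ a • l) := by simpa using (h.tr a 0 l).2 h0
  have hac : I (a + c) l := by
    by_contra hn
    have h1 := (h.hq _ _ hn).unique (y₁ := (a, τ a • l)) (y₂ := (c, τ c • l))
      ⟨(h.tr a c l).2 hc, ha', ha⟩
      ⟨add_comm a c ▸ (h.tr c a l).2 ha, by simpa using (h.tr c 0 l).2 h0, hc⟩
    exact hca (congrArg Prod.fst h1).symm
  refine (h.h2 (a + c) a _ _ ((h.tr a c l).2 hc) ha' hac ha).resolve_left ?_
  simpa using hc0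

/-- The points of a line through the origin. -/
def W (h : Quad I s t τ) (l : {l : L // I 0 l}) : AddSubgroup P where
  carrier := {p | I p l.1}
  zero_mem' := l.2
  add_mem' := fun {a b} ha hb => h.tfix l.2 ha ▸ (h.tr a b l.1).2 hb
  neg_mem' := fun {a} ha => (h.tr a (-a) l.1).1 (by rw [h.tfix l.2 ha, add_neg_cancel]; exact l.2)

omit [Finite P] [Finite L] in
theorem fam (h : Quad I s t τ) : Fam h.W s t where
  cardW := fun l => (Nat.card_coe_set_eq _).trans (h.hl l.1)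
  cardI := (Nat.card_coe_set_eq _).trans (h.hp 0)
  hs := h.hs
  ht := h.ht
  ex := by
    intro i x hx
    obtain ⟨⟨q, m⟩, ⟨h1, h2, h3⟩, -⟩ := h.hq x i.1 hx
    refine ⟨⟨τ (-x) • m, by simpa using (h.tr (-x) x m).2 h1⟩, q, h3, -(-x + q),
      neg_mem (show -x + q ∈ h.W _ from (h.tr (-x) q m).2 h2), by abel⟩
  tri := by
    intro i j k hij hik hjk a ha b hb c hc he
    by_contra h0
    have hin : ∀ i j : {l : L // I 0 l}, i ≠ j → ∀ a, I a i.1 → I a j.1 → a = 0 :=
      fun i j hij a h1 h2 => (h.h2 a 0 _ _ h1 i.2 h2 j.2).resolve_right fun e => hij (Subtype.ext e)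
    have hb' : -b = a + c := by rw [neg_eq_iff_add_eq_zero, ← he]; abel
    have h1 := (h.hq a j.1 fun e => h0 (hin i j hij a ha e)).unique (y₁ := (0, i.1))
      (y₂ := (-b, τ a • k.1)) ⟨ha, i.2, j.2⟩
      ⟨by simpa using (h.tr a 0 k.1).2 k.2, hb' ▸ (h.tr a c k.1).2 hc, (neg_mem hb : -b ∈ h.W j)⟩
    have h2 : a = -c := by
      rw [eq_neg_iff_add_eq_zero, ← hb']
      exact (congrArg Prod.fst h1).symm
    exact h0 (hin i k hik a ha (h2 ▸ (neg_mem hc : -c ∈ h.W k)))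

omit [Finite P] [Finite L] in
theorem orbit_eq (h : Quad I s t τ) {l : L} (hl : I 0 l) :
    orbit (stabilizer G (0 : P)) l = orbit G l ∩ {m | I 0 m} := by
  ext m
  constructor
  · rintro ⟨⟨g, hg⟩, rfl⟩
    refine ⟨⟨g, rfl⟩, ?_⟩
    have := (h.hI g 0 l).2 hl
    rwa [show g • (0 : P) = 0 from hg] at this
  · rintro ⟨⟨g, rfl⟩, hm⟩
    have h1 : -(g • (0 : P)) ∈ h.W ⟨_, hm⟩ :=
      neg_mem (show g • (0 : P) ∈ h.W ⟨_, hm⟩ from (h.hI g 0 l).2 hl)
    refine ⟨⟨τ (-(g • (0 : P))) * g, ?_⟩, ?_⟩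
    · rw [mem_stabilizer_iff, mul_smul, h.hτ, neg_add_cancel]
    · show (τ (-(g • (0 : P))) * g) • l = g • l
      rw [mul_smul]
      exact h.tfix hm h1

omit [Finite L] in
theorem elem (h : Quad I s t τ) {l : L} (hl : I 0 l) {r : ℕ} (hr : r.Prime)
    (hd : r ∣ (orbit G l ∩ {m | I 0 m}).ncard) :
    ∃ (g : P →+ P) (π : {l : L // I 0 l} → {l : L // I 0 l}),
      (∀ i x, x ∈ h.W i → g x ∈ h.W (π i)) ∧ (∀ x, g^[r] x = x) ∧ ∃ x, g x ≠ x := by
  have := Fact.mk hr
  rw [← h.orbit_eq hl, ← index_stabilizer] at hd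
  let φ := toPermHom (stabilizer G (0 : P)) P
  have hle : φ.ker ≤ stabilizer (stabilizer G (0 : P)) l := by
    intro g hg
    have hg' : ∀ p : P, (g : G) • p = p := fun p => congrArg (fun σ : Equiv.Perm P => σ p) hg
    obtain ⟨c, hc, hc0, -⟩ := h.third l 0 0
    exact (h.h2 c 0 ((g : G) • l) l (by simpa only [hg'] using (h.hI g c l).2 hc)
      (by simpa only [hg'] using (h.hI g 0 l).2 hl) hc hl).resolve_left hc0
  have h1 := hd.trans (Subgroup.index_dvd_of_le hle)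
  rw [Subgroup.index_ker] at h1
  obtain ⟨⟨_, ⟨g, hg⟩, rfl⟩, hσ⟩ := exists_prime_orderOf_dvd_card' r h1
  rw [← Subgroup.orderOf_coe] at hσ
  have hg0 : g • (0 : P) = 0 := hg
  refine ⟨AddMonoidHom.mk' (fun p => g • p) (h.hadd g hg),
    fun i => ⟨g • i.1, by simpa only [hg0] using (h.hI g 0 i.1).2 i.2⟩,
    fun i x hx => (h.hI g x i.1).2 hx, fun x => ?_, ?_⟩
  · have h2 := pow_orderOf_eq_one (φ ⟨g, hg⟩)
    rw [hσ] at h2
    have h3 := congrArg (fun σ : Equiv.Perm P => σ x) h2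
    simp only [Equiv.Perm.coe_pow] at h3
    exact h3
  · by_contra hc
    push Not at hc
    have : φ ⟨g, hg⟩ = 1 := Equiv.ext hc
    simp only [this, orderOf_one] at hσ
    exact hr.ne_one hσ.symm

theorem flags (h : Quad I s t τ) (O : Set L) (hO : ∀ (g : G), ∀ l ∈ O, g • l ∈ O) :
    O.ncard * (s + 1) = Nat.card P * (O ∩ {m | I 0 m}).ncard := by
  classical
  have := Fintype.ofFinite P
  have := Fintype.ofFinite L
  have h1 := Finset.card_mul_eq_card_mul (s := O.toFinset) (t := Finset.univ)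
    (m := s + 1) (n := (O ∩ {m | I 0 m}).ncard) (fun m p => I p m)
    (fun m _ => by
      rw [← h.hl m, ← Set.ncard_coe_finset]
      congr 1
      ext p
      simp)
    (fun p _ => by
      rw [← Set.ncard_image_of_injective _ (MulAction.injective (τ p)), ← Set.ncard_coe_finset]
      congr 1
      ext m
      simp only [Finset.mem_coe, Finset.mem_bipartiteBelow, Set.mem_toFinset]
      constructor
      · rintro ⟨hm, hm'⟩
        refine ⟨(τ p)⁻¹ • m, ⟨hO _ _ hm, (h.tr p 0 _).1 ?_⟩, by simp⟩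
        simpa using hm'
      · rintro ⟨l, ⟨hl, hm⟩, rfl⟩
        exact ⟨hO _ _ hl, by simpa using (h.tr p 0 _).2 hm⟩)
  rwa [← Set.ncard_eq_toFinset_card', Finset.card_univ, ← Nat.card_eq_fintype_card] at h1

theorem main (h : Quad I s t τ) (l : L) (hd : Nat.card L ∣ 2 * (orbit G l).ncard) :
    (s, t) = (3, 5) ∨ (s, t) = (15, 17) := by
  have := Fintype.ofFinite P
  have := Fintype.ofFinite {l : L // I 0 l}
  refine h.fam.alg fun r hr ⟨u, hu⟩ => ?_
  obtain ⟨k, hk⟩ := hd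
  have h1 := h.flags (orbit G l) fun g m hm => mem_orbit_of_mem_orbit g hm
  have h2 := h.flags Set.univ fun _ _ _ => trivial
  rw [Set.ncard_univ, Set.univ_inter, h.hp, hu] at h2
  have h3 : (orbit G l ∩ {m | I 0 m}).ncard = r * (u * k) := by
    apply Nat.eq_of_mul_eq_mul_left (Nat.mul_pos two_pos (Nat.card_pos (α := P)))
    rw [mul_assoc, ← h1, ← mul_assoc, hk, mul_right_comm, h2]
    ring
  have h4 : 0 < (orbit G l).ncard := (Set.ncard_pos (Set.toFinite _)).2 (nonempty_orbit l)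
  obtain ⟨m, hm, hm0⟩ := Set.nonempty_of_ncard_ne_zero (s := orbit G l ∩ {m | I 0 m}) fun e => by
    rw [e] at h1
    exact absurd h1 (Nat.mul_pos h4 (Nat.succ_pos s)).ne'
  refine h.elem hm0 hr ?_
  rw [orbit_eq_iff.2 hm, h3]
  exact Dvd.intro _ rfl

end Quad

end Pool.Agent.Lib.MP_c6b127_co.AF
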