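import Pool.Agent.Lib.MP_c6b127_co.AF.Fam

/-!
The group is an elementary abelian `2`-group, `s + 1 = 2 ^ h` and `t = s + 2`.
-/

set_option autoImplicit false

namespace Pool.Agent.Lib.MP_c6b127_co.AF

open Finset

variable {V ι : Type} [AddCommGroup V] [Fintype V] [Fintype ι] {W : ι → AddSubgroup V} {s t : ℕ}

namespace Fam

omit [Fintype V] [Fintype ι] in
theorem notmem (h : Fam W s t) {i j k : ι} (hij : i ≠ j) (hi : i ≠ k) (hj : j ≠ k) {a b : V}
    (ha : a ∈ W i) (hb : b ∈ W j) (ha0 : a ≠ 0) : a + b ∉ W k := fun hc =>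
  ha0 (h.tri i j k hij hi hj a ha b hb (-(a + b)) (neg_mem hc) (add_neg_cancel _))

omit [Fintype V] in
theorem step (h : Fam W s t) {i j : ι} (hij : i ≠ j) {a b : V} {p : ℕ} (ha : a ∈ W i)
    (ha0 : a ≠ 0) (hp : p • a = 0) (hb : b ∈ W j) : p • b = 0 := by
  by_cases hb0 : b = 0
  · simp [hb0]
  obtain ⟨k, hki, hkj⟩ := h.third i j
  have hx := h.notmem hij hki.symm hkj.symm ha hb ha0
  obtain ⟨l, c, hc, d, hd, he⟩ := h.ex k _ hx
  have hc' : c = a + b - d := by rw [he]; abel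
  have hlk : k ≠ l := by rintro rfl; exact hx (he ▸ add_mem hc hd)
  have hli : i ≠ l := by
    rintro rfl
    exact h.notmem hij.symm hkj.symm hki.symm hb (sub_mem ha hd) hb0
      (by convert hc using 1; rw [hc']; abel)
  have hlj : j ≠ l := by
    rintro rfl
    exact h.notmem hij hki.symm hkj.symm ha (sub_mem hb hd) ha0
      (by convert hc using 1; rw [hc']; abel)
  refine h.tri j k l hkj.symm hlj hlk _ (nsmul_mem hb p) _ (neg_mem (nsmul_mem hc p)) _
    (neg_mem (nsmul_mem hd p)) ?_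
  have : p • (a + b) = p • (c + d) := by rw [he]
  rw [nsmul_add, nsmul_add, hp, zero_add] at this
  rw [this]
  abel

theorem expo (h : Fam W s t) : ∃ p : ℕ, p.Prime ∧ ∀ x : V, p • x = 0 := by
  obtain ⟨i⟩ : Nonempty ι := (Nat.card_pos_iff.1 (by rw [h.cardI]; omega)).1
  obtain ⟨j, hj, -⟩ := h.third i i
  have hs := h.hs
  obtain ⟨p, hp, hd⟩ := Nat.exists_prime_and_dvd (n := s + 1) (by omega)
  have := Fact.mk hp
  obtain ⟨a, ha⟩ := exists_prime_addOrderOf_dvd_card' (G := W i) p (by rwa [h.cardW])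
  have ha0 : (a : V) ≠ 0 := by
    intro h0
    have : a = 0 := Subtype.ext h0
    rw [this, addOrderOf_zero] at ha
    exact hp.ne_one ha.symm
  have hpa : p • (a : V) = 0 := by
    have := addOrderOf_nsmul_eq_zero a
    rw [ha] at this
    exact_mod_cast congrArg Subtype.val this
  obtain ⟨b, hb, hb0⟩ := h.exne j
  have hall : ∀ k, ∀ x ∈ W k, p • x = 0 := by
    intro k x hx
    by_cases hk : i = k
    · subst hk
      exact h.step hj hb hb0 (h.step hj.symm a.2 ha0 hpa hb) hx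
    · exact h.step hk a.2 ha0 hpa hx
  refine ⟨p, hp, fun x => ?_⟩
  by_cases hx : x ∈ W i
  · exact hall i x hx
  · obtain ⟨k, c, hc, d, hd, rfl⟩ := h.ex i x hx
    rw [nsmul_add, hall i c hc, hall k d hd, add_zero]

theorem even_t (h : Fam W s t) : 2 ∣ t + 1 := by
  obtain ⟨i⟩ : Nonempty ι := (Nat.card_pos_iff.1 (by rw [h.cardI]; omega)).1
  obtain ⟨j, hj, -⟩ := h.third i i
  obtain ⟨a, ha, ha0⟩ := h.exne i
  obtain ⟨b, hb, hb0⟩ := h.exne j
  have hx : ∀ k, a + b ∉ W k := by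
    intro k hk
    by_cases h1 : i = k
    · subst h1
      exact hb0 (h.inter hj hb (by simpa using sub_mem hk ha))
    by_cases h2 : j = k
    · subst h2
      exact ha0 (h.inter hj (by simpa using sub_mem hk hb) ha)
    exact h.notmem hj.symm h1 h2 ha hb ha0 hk
  choose σ c hc d hd he using fun k => h.ex k _ (hx k)
  have h2 : ∀ k, σ^[2] k = k := fun k =>
    (h.uniq (hc (σ k)) (hd (σ k)) (hd k) (hc k) (he (σ k) ▸ hx _)
      (by rw [← he, he k, add_comm])).1
  have h3 := fix_mod σ Nat.prime_two h2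
  have : IsEmpty {k // σ k = k} := ⟨fun k => hx k.1 (by
    rw [he k.1]; exact add_mem (hc _) (by simpa only [k.2] using hd k.1))⟩
  rw [h.cardI, Nat.card_of_isEmpty] at h3
  exact (Nat.modEq_zero_iff_dvd).1 h3

theorem params (h : Fam W s t) : ∃ n : ℕ, s + 1 = 2 ^ n ∧ t = s + 2 ∧ ∀ x : V, x + x = 0 := by
  obtain ⟨p, hp, hx⟩ := h.expo
  have hs := h.hs
  have ht := h.ht
  have hV := Nat.eq_prime_pow_of_unique_prime_dvd (n := Nat.card V) (p := p) Nat.card_pos.ne'
    fun {d} hdp hdd => by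
      have := Fact.mk hdp
      obtain ⟨a, ha⟩ := exists_prime_addOrderOf_dvd_card' (G := V) d hdd
      exact (Nat.prime_dvd_prime_iff_eq hdp hp).1 (ha ▸ addOrderOf_dvd_of_nsmul_eq_zero (hx a))
  generalize (Nat.card V).primeFactorsList.length = N at hV
  rw [h.cardV] at hV
  obtain ⟨n, -, hn⟩ := (Nat.dvd_prime_pow hp).1 (Dvd.intro _ hV)
  obtain ⟨m, -, hm⟩ := (Nat.dvd_prime_pow hp).1 (Dvd.intro_left _ hV)
  have h1 := Nat.pow_sub_one_gcd_pow_sub_one p n m
  rw [← hn, ← hm, Nat.add_sub_cancel, Nat.add_sub_cancel, Nat.gcd_eq_left (Dvd.intro _ rfl)] at h1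
  have h2 : p ^ n = p ^ Nat.gcd n m := by
    have := pow_pos hp.pos (Nat.gcd n m)
    omega
  obtain ⟨k, hk⟩ : n ∣ m := by
    rw [Nat.pow_right_injective hp.two_le h2]
    exact Nat.gcd_dvd_right n m
  rw [hk, pow_mul, ← hn] at hm
  have hH := h.higman
  have hts : t = s + 2 := by
    rcases k with _ | _ | _ | k
    · simp at hm
      omega
    · simp only [zero_add, pow_one] at hm
      nlinarith
    · have : s * t = s * (s + 2) := by
        rw [show 0 + 1 + 1 = 2 from rfl] at hm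
        nlinarith
      exact Nat.eq_of_mul_eq_mul_left (by omega) this
    · have h3 : (s + 1) ^ 3 ≤ (s + 1) ^ (k + 1 + 1 + 1) :=
        Nat.pow_le_pow_right (by omega) (by omega)
      have h4 : s * t ≤ s * s ^ 2 := Nat.mul_le_mul_left _ hH
      nlinarith
  have h5 := h.even_t
  have h6 : 2 ∣ p ^ n := by omega
  obtain rfl := (Nat.prime_dvd_prime_iff_eq Nat.prime_two hp).1 (Nat.prime_two.dvd_of_dvd_pow h6)
  exact ⟨n, hn, hts, fun x => by rw [← two_nsmul, hx]⟩

end Fam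

end Pool.Agent.Lib.MP_c6b127_co.AF
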